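import Pool.Agent.SPH.B3.Ok
import Pool.Agent.SPH.Sub
import Pool.Agent.SPH.Fix
import Pool.Agent.SPH.Idx
import Pool.Agent.Helper19.SPB.AB3

/-!
# Project SPH: a centraliser of type `B_3`

Let `J` be an embedding of the dual germ of type `B_3` in the germ `E` such that the range of the
homomorphism `ρ` is the centraliser of `δ ^ k`, where the images of the atoms have the ranks `2`
and `3`.  Then every automorphism which fixes `δ` and the length is on `Cn k` the conjugation with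
a power of `δ`.
-/

set_option maxRecDepth 10000

namespace Pool.Agent.SPH

open Pool.Agent.Helper7.AG Pool.Agent.Helper38.BN Pool.Agent.Helper19.SPB

namespace B3

/-- the element with a given number -/
def el (i : ℕ) (h : i < 20) : AD.SS ad_ok := ⟨i, h⟩

theorem kp : AD.prc td 0 (List.ofFn ad.gi) = true := by decide +kernel

theorem of0 : (PresentedGroup.of (0 : Fin 3) : HB 2) = dH := rfl

theorem of1 : (PresentedGroup.of (1 : Fin 3) : HB 2) = aH 0 := (aH_of (by omega)).symm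

theorem of2 : (PresentedGroup.of (2 : Fin 3) : HB 2) = aH 1 := (aH_of (by omega)).symm

/-- the frame of the Artin group of type `B_3` -/
theorem exists_frame3 : ∃ (L : Lattice (HB 2)) (F : @Frame _ _ _ (AD.EE ad_ok) (HB 2) _ L),
    F.δ = del ∧ F.g (el 1 (by norm_num)) = dH ∧ F.g (el 6 (by norm_num)) = aH 0 ∧
      F.g (el 9 (by norm_num)) = aH 1 ∧
      ∀ {G : Type} [Group G] (X : AD.SS ad_ok → G), X ⊥ = 1 →
        (∀ {x y : AD.SS ad_ok}, x ≤ y → X x * X ((AD.EE ad_ok).q x y) = X y) →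
          ∃ ρ : HB 2 →* G, ∀ x, ρ (F.g x) = X x := by
  obtain ⟨P, hPg, hPl⟩ := AD.exists_pre ad_ok
  obtain ⟨L, F, hg, hl⟩ := P.exists_frame
  let _ : Lattice (HB 2) := L
  have hg' : ∀ (k : Fin 3) (x : AD.SS ad_ok), x.i = ad.gi k →
      F.g x = (PresentedGroup.of k : HB 2) := by
    intro k x hx
    rw [hg]
    exact hPg k x hx
  refine ⟨L, F, ?_, ?_, ?_, ?_, ?_⟩
  · have h := AD.prod_of ad_ok F hg' kp
    rw [← h]
    show (List.ofFn fun k : Fin 3 => (PresentedGroup.of k : HB 2)).prod = del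
    unfold del
    rw [← of0, ← of1, ← of2]
    simp [List.ofFn_succ, mul_assoc]
  · rw [← of0]
    exact hg' 0 _ rfl
  · rw [← of1]
    exact hg' 1 _ rfl
  · rw [← of2]
    exact hg' 2 _ rfl
  · intro G _ X h0 hX
    obtain ⟨ρ, hρ⟩ := AD.exists_hom ad_ok P hPg X h0 hX
    exact ⟨ρ, fun x => (congrArg (fun u => ρ u) (hg x)).trans (hρ x)⟩

end B3

namespace Frame

variable {S : Type*} [Lattice S] [BoundedOrder S] {E : Germ S} {G : Type} [Group G] [Lattice G]
  (F : Frame E G)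

/-- the automorphisms of a centraliser of type `B_3` -/
theorem fix_B3 (J : GEmb (AD.EE B3.ad_ok) E) {k : ℕ} (hx : ∀ x, E.tau^[k] (J.j x) = J.j x)
    (hs : ∀ s : S, s ≠ ⊥ → E.tau^[k] s = s → ∃ x, x ≠ ⊥ ∧ J.j x ≤ s)
    (hd : E.rk (J.j (B3.el 1 (by norm_num))) = 3) (ha : E.rk (J.j (B3.el 6 (by norm_num))) = 2)
    (hb : E.rk (J.j (B3.el 9 (by norm_num))) = 2)
    (h1 : ∀ x, E.tau x = x → x = ⊥ ∨ x = ⊤) {φ : MulAut G} (hφ : φ F.δ = F.δ)
    (hl : ∀ u, F.len (φ u) = F.len u) :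
    ∃ i : ℤ, ∀ u ∈ F.Cn k, φ u = F.δ ^ i * u * (F.δ ^ i)⁻¹ := by
  obtain ⟨L, F0, hδ, e1, e6, e9, huni⟩ := B3.exists_frame3
  let _ : Lattice (HB 2) := L
  obtain ⟨ρ, hρ⟩ := huni (fun x => F.g (J.j x)) (by
    show F.g (J.j ⊥) = 1
    rw [J.bot, F.g_bot]) (by
    intro x y hxy
    show F.g (J.j x) * F.g (J.j ((AD.EE B3.ad_ok).q x y)) = F.g (J.j y)
    rw [← J.q hxy]
    exact F.g_mul (J.mono hxy))
  have hr := J.range_eq F0 F hρ hx hs
  obtain ⟨ψ, hψ, hψδ⟩ := J.exists_restrict F0 F hρ hr hφ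
  rw [hδ] at hψδ
  -- the length
  have hlen : ∀ w : HB 2, F.len (ρ w) = (ex 2 3 w).toAdd := by
    intro w
    let f : HB 2 →* Multiplicative ℤ :=
      { toFun := fun w => Multiplicative.ofAdd (F.len (ρ w))
        map_one' := by rw [map_one, F.toGar.len_one]; rfl
        map_mul' := fun v w => by rw [map_mul, F.len_mul]; rfl }
    have h2 : f = ex 2 3 := by
      apply homH_ext
      · intro j hj
        rw [ex_a 2 3 hj]
        show Multiplicative.ofAdd (F.len (ρ (aH j))) = _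
        congr 1
        interval_cases j
        · rw [← e6, hρ, F.len_g, ha]
          rfl
        · rw [← e9, hρ, F.len_g, hb]
          rfl
      · rw [ex_d 2 3]
        show Multiplicative.ofAdd (F.len (ρ dH)) = _
        congr 1
        rw [← e1, hρ, F.len_g, hd]
        rfl
    have h3 : Multiplicative.ofAdd (F.len (ρ w)) = ex 2 3 w := DFunLike.congr_fun h2 w
    rw [← h3, toAdd_ofAdd]
  obtain ⟨s, hs'⟩ := aut_B3_len ψ hψδ (by
    intro w
    apply Multiplicative.toAdd.injective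
    rw [← hlen, ← hlen, hψ, hl])
  have hcom : ρ s * F.δ = F.δ * ρ s := by
    have h2 := hs' del
    rw [hψδ] at h2
    have h3 : s * del = del * s := by
      nth_rewrite 2 [h2]
      group
    rw [← J.map_δ F0 F hρ, hδ, ← map_mul, ← map_mul, h3]
  obtain ⟨i, hi⟩ := F.cent_one h1 hcom
  refine ⟨i, fun u hu => ?_⟩
  rw [← hr] at hu
  obtain ⟨w, rfl⟩ := hu
  rw [← hψ, hs', map_mul, map_mul, map_inv, hi]

end Frame

end Pool.Agent.SPH
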