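import Pool.Agent.SPH.B3.Tab
import Pool.Agent.SPH.AdChk
import Pool.Agent.Helper38.BN.Defs

/-!
# Project SPH: the certificate of the rank two relations of type B3
-/

set_option linter.all false

namespace Pool.Agent.SPH.B3

/-- the steps -/
def cl : List CD.Stp := [
  .dr 1 6, .dr 6 4, .dr 6 9, .bs 1 6 4, .bs 1 9 2, .bs 6 9 3, .cl 2 1, .cl 8 6, .cl 9 1,
  .dl 3 1, .ct 2 1 9, .ck 3 2 1, .ck 9 3 1, .ck 3 4 2, .ck 4 3 2, .dr 1 8, .ce 1 6 9,
  .ce 1 8 6, .cj 9 1 8, .cj 4 2 9, .cj 6 4 9, .dl 5 4, .ct 3 1 6, .ck 5 3 4, .ck 6 5 4,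
  .cj 7 3 6, .ce 8 6 7]

/-- the labels -/
def cox (i j : ℕ) : ℕ :=
  cond (Nat.beq i 1)
    (cond (Nat.beq j 1) 1 (cond (Nat.beq j 6) 4 (cond (Nat.beq j 9) 2 0)))
    (cond (Nat.beq i 6)
    (cond (Nat.beq j 1) 4 (cond (Nat.beq j 6) 1 (cond (Nat.beq j 9) 3 0)))
    (cond (Nat.beq i 9)
    (cond (Nat.beq j 1) 2 (cond (Nat.beq j 6) 3 (cond (Nat.beq j 9) 1 0)))
    (0)))

/-- the data -/
noncomputable def ad : AD where
  D := td
  n := 3
  M := Pool.Agent.Helper38.BN.Bs 2
  T := 9
  gi := ![1, 6, 9]
  cox := cox
  l := cl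
  A0 := 0x242
  A1 := 0x3fe
  R1 := 0x18a00000000000000000000000000000000000000000000000000000000000000c0000000000000000000000000000000000000000000000000000000000000006800000000000000000000000000000000000000000000000000000000000002b00000000000000000000000000000000000000000000000000000000000000018000000000000000000000000000000000000000000000000000000000000020c0000000000000000000000000000000000000000000000000000000000000056000000000000000000000000000000000000000000000000000000000000020200000000000000000000000000000000000000000000000000000000000003400000000000000000000000000000000000000000000000000000000000000000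

end Pool.Agent.SPH.B3
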