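import Pool.Agent.SPH.Dat

/-!
# Project SPH: the tables of type B3

The simple elements of the dual Garside structure of the Artin group of type B3.
-/

set_option linter.all false

namespace Pool.Agent.SPH.B3

/-- the masks -/
def tM : ℕ :=
  0x1ff01a001580106010100c500600034002b000c0100008000400020001000080004000200010000

/-- the inverse complements -/
def tK : ℕ :=
  0x106040209080703050b0f120e0d0c110a1013

/-- the lengths -/
def tR : ℕ :=
  0x32222222221111111110

/-- the quotients -/
def tQ : Tr :=
  .nd (.nd (.nd (.nd (.nd (.lf 0x131211100f0e0d0c0b0a09080706050403020100) (.lf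
  0x100000000000000000000000000000000000000)) (.nd (.lf
  0xd06000000070000000000000000000000000000) (.lf 0))) (.nd (.nd (.lf
  0x1000090000000000020300000000000000000000) (.lf 0)) (.nd (.lf
  0x400000000000000000000000000000000000000) (.lf 0)))) (.nd (.nd (.nd (.lf
  0xf00000900000000010000000000000000000000) (.lf 0x700000000000000000000000000000000000000))
  (.nd (.lf 0x200000000000000000000000000000000000000) (.lf 0))) (.nd (.nd (.lf
  0x1109000000000705040000000000000000000000) (.lf 0)) (.nd (.lf
  0x600000000000000000000000000000000000000) (.lf 0))))) (.nd (.nd (.nd (.nd (.lf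
  0x1200000009080000060000000000000000000000) (.lf 0x300000000000000000000000000000000000000))
  (.nd (.lf 0xe08070301000000000000000000000000000000) (.lf 0))) (.nd (.nd (.lf
  0xa00040000000003000000000000000000000000) (.lf 0)) (.nd (.lf
  0x500000000000000000000000000000000000000) (.lf 0)))) (.nd (.nd (.nd (.lf
  0xb00000200010006000400000000000000000000) (.lf 0)) (.nd (.lf
  0x900000000000000000000000000000000000000) (.lf 0))) (.nd (.nd (.lf
  0xc00050000030600000000000000000000000000) (.lf 0)) (.nd (.lf
  0x800000000000000000000000000000000000000) (.lf 0)))))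

/-- the meets -/
def tT : Tr :=
  .nd (.nd (.nd (.nd (.nd (.lf 0) (.lf 0x1009091009030003020309000000000003020000)) (.nd (.lf
  0x808000000080000000000080000000000000000) (.lf 0))) (.nd (.nd (.lf
  0x400040000000000040400000000000400000000) (.lf 0)) (.nd (.lf
  0xc0605030003060c060300000006050003000000) (.lf 0)))) (.nd (.nd (.nd (.lf
  0x200000200000000020000000000000000020000) (.lf 0x1212090909080606060009080006000000000000))
  (.nd (.lf 0xa00040300030003040a00000000000403000000) (.lf 0))) (.nd (.nd (.lf
  0x606000000000606060000000006000000000000) (.lf 0)) (.nd (.lf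
  0xe080703010e0703010300080700000003000100) (.lf 0))))) (.nd (.nd (.nd (.nd (.lf
  0x100000001010000010000000000000000000100) (.lf 0x1109110909070705040409000700050400000000))
  (.nd (.lf 0x909090909000000000009000000000000000000) (.lf 0))) (.nd (.nd (.lf
  0x500050000000005000000000000050000000000) (.lf 0)) (.nd (.lf
  0xd06070000070d06060000000706000000000000) (.lf 0)))) (.nd (.nd (.nd (.lf
  0x300000300030003000300000000000003000000) (.lf 0x131211100f0e0d0c0b0a09080706050403020100))
  (.nd (.lf 0xb060402010106060b0400000006000400020100) (.lf 0))) (.nd (.nd (.lf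
  0x700070000070700000000000700000000000000) (.lf 0)) (.nd (.lf
  0xf0909090f010000010009000000000000000100) (.lf 0)))))

/-- the tables -/
noncomputable def td : TD where
  N := 20
  msk i := ent 16 tM i
  mt i j := ent 8 (tT.get i) j
  q i j := ent 8 (tQ.get i) j
  ki i := ent 8 tK i
  rk i := ent 4 tR i
  m := 3

end Pool.Agent.SPH.B3
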